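import Pool.Graph.R_pool_sql_team_seeded_843ab51a.V11328.DG.Exist2

/-! Beck's criterion for the biased game `(1:b)` in an almost disjoint hypergraph; adapted from the
library's file for `b = 1`. -/

set_option autoImplicit false

open MeasureTheory Filter Topology Finset unitInterval Pool.Agent.V11328.DG
open scoped SimpleGraph

namespace Pool.Agent.H53Dom

variable {V : Type*} [Fintype V] [DecidableEq V]

/-- The weight of one set in the `(1:b)` game. -/
noncomputable def wt {V : Type*} [DecidableEq V] (b : ℕ) (D S A : Finset V) : ℝ :=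
  if Disjoint A S then (1 / ((b : ℝ) + 1)) ^ #(A \ D) else 0

/-- The potential. -/
noncomputable def pot {V : Type*} [DecidableEq V] (b : ℕ) (F : Finset (Finset V)) (D S : Finset V) :
    ℝ :=
  ∑ A ∈ F, wt b D S A

/-- The weighted degree of a vertex. -/
noncomputable def dg {V : Type*} [DecidableEq V] (b : ℕ) (F : Finset (Finset V)) (D S : Finset V)
    (x : V) : ℝ :=
  ∑ A ∈ F, wt b D S A * (if x ∈ A then 1 else 0)

omit [Fintype V] in
lemma wt_nonneg (b : ℕ) (D S A : Finset V) : 0 ≤ wt b D S A := by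
  unfold wt
  split_ifs <;> positivity

omit [Fintype V] in
lemma dg_nonneg (b : ℕ) (F : Finset (Finset V)) (D S : Finset V) (x : V) : 0 ≤ dg b F D S x := by
  unfold dg
  refine Finset.sum_nonneg fun A _ => mul_nonneg (wt_nonneg _ _ _ _) ?_
  split_ifs <;> norm_num

omit [Fintype V] in
lemma wt_insert {b : ℕ} {D : Finset V} (S A : Finset V) {x : V} (hx : x ∉ D) :
    wt b (insert x D) S A = wt b D S A * (1 + b * if x ∈ A then 1 else 0) := by
  unfold wt
  by_cases hd : Disjoint A S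
  · rw [if_pos hd, if_pos hd]
    by_cases h : x ∈ A
    · rw [if_pos h]
      have h1 : A \ insert x D = (A \ D).erase x := by
        ext z
        simp only [Finset.mem_sdiff, mem_insert, mem_erase]
        tauto
      have h2 : x ∈ A \ D := Finset.mem_sdiff.2 ⟨h, hx⟩
      have h3 : #(A \ D) = #((A \ D).erase x) + 1 := by
        rw [Finset.card_erase_of_mem h2]
        have := Finset.card_pos.2 ⟨x, h2⟩
        omega
      rw [h1, h3, pow_succ]
      field_simp
      ring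
    · rw [if_neg h]
      have h1 : A \ insert x D = A \ D := by
        ext z
        simp only [Finset.mem_sdiff, mem_insert]
        constructor
        · rintro ⟨h1, h2⟩
          exact ⟨h1, fun h3 => h2 (Or.inr h3)⟩
        · rintro ⟨h1, h2⟩
          refine ⟨h1, ?_⟩
          rintro (rfl | h3)
          · exact h h1
          · exact h2 h3
      rw [h1]
      ring
  · rw [if_neg hd, if_neg hd, zero_mul]

omit [Fintype V] in
lemma wt_both {b : ℕ} {D : Finset V} (S A Z : Finset V) {x : V} (hx : x ∉ D) :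
    wt b D S A * (1 + b * if x ∈ A then 1 else 0) * (1 - ∑ z ∈ Z, if z ∈ A then 1 else 0) ≤
      wt b (insert x D) (S ∪ Z) A := by
  rw [← wt_insert S A hx]
  have h0 := wt_nonneg b (insert x D) S A
  by_cases h : Disjoint A Z
  · have h1 : (∑ z ∈ Z, if z ∈ A then (1 : ℝ) else 0) = 0 :=
      Finset.sum_eq_zero fun z hz => if_neg fun hzA => Finset.disjoint_left.1 h hzA hz
    rw [h1, sub_zero, mul_one]
    unfold wt
    by_cases hd : Disjoint A S
    · rw [if_pos hd, if_pos (Finset.disjoint_union_right.2 ⟨hd, h⟩)]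
    · rw [if_neg hd]
      split_ifs
      · positivity
      · exact le_rfl
  · obtain ⟨z, hzA, hzZ⟩ := Finset.not_disjoint_iff.1 h
    have h1 : (1 : ℝ) ≤ ∑ z ∈ Z, if z ∈ A then (1 : ℝ) else 0 := by
      have h2 := Finset.single_le_sum (f := fun z => if z ∈ A then (1 : ℝ) else 0)
        (fun i _ => by split_ifs <;> norm_num) hzZ
      simp only [if_pos hzA] at h2
      exact h2
    refine le_trans ?_ (wt_nonneg b (insert x D) (S ∪ Z) A)
    exact mul_nonpos_of_nonneg_of_nonpos h0 (by linarith)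

omit [Fintype V] in
lemma pair_le {b : ℕ} {F : Finset (Finset V)} (hF : ∀ A ∈ F, ∀ B ∈ F, A ≠ B → #(A ∩ B) ≤ 1)
    {D S : Finset V} {x y : V} (hx : x ∉ D) (hy : y ∉ D) (hxy : x ≠ y) :
    ∑ A ∈ F, wt b D S A * ((if x ∈ A then 1 else 0) * (if y ∈ A then 1 else 0)) ≤
      (1 / ((b : ℝ) + 1)) ^ 2 := by
  by_cases hex : ∃ A ∈ F, x ∈ A ∧ y ∈ A
  · obtain ⟨A, hA, hxA, hyA⟩ := hex
    rw [Finset.sum_eq_single_of_mem A hA]
    · rw [if_pos hxA, if_pos hyA, mul_one, mul_one]
      unfold wt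
      split_ifs
      · have h3 : 2 ≤ #(A \ D) := by
          have h4 : ({x, y} : Finset V) ⊆ A \ D := by
            intro z hz
            rw [mem_insert, mem_singleton] at hz
            rcases hz with rfl | rfl
            · exact Finset.mem_sdiff.2 ⟨hxA, hx⟩
            · exact Finset.mem_sdiff.2 ⟨hyA, hy⟩
          have h5 := Finset.card_le_card h4
          rwa [Finset.card_pair hxy] at h5
        have hb : (0 : ℝ) ≤ b := Nat.cast_nonneg b
        exact pow_le_pow_of_le_one (by positivity)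
          ((div_le_one (by positivity)).2 (by linarith)) h3
      · positivity
    · intro B hB hne
      by_cases hxB : x ∈ B
      · by_cases hyB : y ∈ B
        · exfalso
          have h3 := hF A hA B hB (Ne.symm hne)
          have h4 : ({x, y} : Finset V) ⊆ A ∩ B := by
            intro z hz
            rw [mem_insert, mem_singleton] at hz
            rcases hz with rfl | rfl
            · exact mem_inter.2 ⟨hxA, hxB⟩
            · exact mem_inter.2 ⟨hyA, hyB⟩
          have h5 := Finset.card_le_card h4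
          rw [Finset.card_pair hxy] at h5
          omega
        · rw [if_neg hyB]
          ring
      · rw [if_neg hxB]
        ring
  · rw [Finset.sum_eq_zero]
    · positivity
    · intro A hA
      by_cases hxA : x ∈ A
      · by_cases hyA : y ∈ A
        · exact absurd ⟨A, hA, hxA, hyA⟩ hex
        · rw [if_neg hyA]
          ring
      · rw [if_neg hxA]
        ring

omit [Fintype V] in
lemma pot_step {b : ℕ} {F : Finset (Finset V)} (hF : ∀ A ∈ F, ∀ B ∈ F, A ≠ B → #(A ∩ B) ≤ 1)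
    {D S Z : Finset V} {x : V} (hx : x ∉ D) (hZ : #Z ≤ b) (hZD : ∀ z ∈ Z, z ∉ D ∧ x ≠ z)
    (hdeg : ∀ z ∈ Z, dg b F D S z ≤ dg b F D S x) :
    pot b F D S - b * #Z * (1 / ((b : ℝ) + 1)) ^ 2 ≤ pot b F (insert x D) (S ∪ Z) := by
  have h1 : ∑ A ∈ F, wt b D S A * (1 + b * if x ∈ A then 1 else 0) *
      (1 - ∑ z ∈ Z, if z ∈ A then 1 else 0) = pot b F D S + b * dg b F D S x -
      ∑ z ∈ Z, dg b F D S z -
      b * ∑ z ∈ Z, ∑ A ∈ F, wt b D S A * ((if x ∈ A then 1 else 0) * (if z ∈ A then 1 else 0)) := by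
    unfold pot dg
    rw [Finset.sum_comm (s := Z), Finset.sum_comm (s := Z), Finset.mul_sum, Finset.mul_sum,
      ← Finset.sum_add_distrib, ← Finset.sum_sub_distrib, ← Finset.sum_sub_distrib]
    refine Finset.sum_congr rfl fun A _ => ?_
    simp only [← Finset.mul_sum]
    ring
  have h2 : ∑ A ∈ F, wt b D S A * (1 + b * if x ∈ A then 1 else 0) *
      (1 - ∑ z ∈ Z, if z ∈ A then 1 else 0) ≤ pot b F (insert x D) (S ∪ Z) :=
    Finset.sum_le_sum fun A _ => wt_both S A Z hx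
  have h3 : ∑ z ∈ Z, dg b F D S z ≤ #Z * dg b F D S x := by
    refine (Finset.sum_le_sum hdeg).trans ?_
    rw [Finset.sum_const, nsmul_eq_mul]
  have h4 : ∑ z ∈ Z, ∑ A ∈ F, wt b D S A * ((if x ∈ A then 1 else 0) * (if z ∈ A then 1 else 0)) ≤
      #Z * (1 / ((b : ℝ) + 1)) ^ 2 := by
    refine (Finset.sum_le_sum fun z hz => pair_le hF hx (hZD z hz).1 (hZD z hz).2).trans ?_
    rw [Finset.sum_const, nsmul_eq_mul]
  have h5 : (#Z : ℝ) * dg b F D S x ≤ b * dg b F D S x :=
    mul_le_mul_of_nonneg_right (by exact_mod_cast hZ) (dg_nonneg b F D S x)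
  have h6 := mul_le_mul_of_nonneg_left h4 (Nat.cast_nonneg (α := ℝ) b)
  rw [h1] at h2
  linarith

/-- Beck's criterion for the `(1:b)` game. -/
theorem beck {b : ℕ} {F : Finset (Finset V)} (hF : ∀ A ∈ F, ∀ B ∈ F, A ≠ B → #(A ∩ B) ≤ 1)
    {T : Finset V → Prop} (hT : ∀ D, (∃ A ∈ F, A ⊆ D) → T D) :
    ∀ (t : ℕ) (D S : Finset V), Disjoint D S → #((D ∪ S)ᶜ) ≤ t →
      (#((D ∪ S)ᶜ) : ℝ) * ((b : ℝ) ^ 2 / ((b : ℝ) + 1) ^ 3) < pot b F D S → Forces T b t D S := by
  have hend : ∀ D S : Finset V, (D ∪ S)ᶜ = ∅ → 0 < pot b F D S → T D := by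
    intro D S hc hpos
    unfold pot at hpos
    obtain ⟨A, hA, hw⟩ : ∃ A ∈ F, 0 < wt b D S A := by
      by_contra hcon
      push Not at hcon
      exact absurd hpos (not_lt.2 (Finset.sum_nonpos hcon))
    refine hT D ⟨A, hA, fun z hz => ?_⟩
    have hd : Disjoint A S := by
      by_contra hcon
      unfold wt at hw
      rw [if_neg hcon] at hw
      exact lt_irrefl _ hw
    have hz' : z ∈ D ∪ S := by
      by_contra hcon
      have : z ∈ (D ∪ S)ᶜ := mem_compl.2 hcon
      rw [hc] at this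
      simp at this
    rcases mem_union.1 hz' with h | h
    · exact h
    · exact absurd h (Finset.disjoint_left.1 hd hz)
  intro t
  induction t with
  | zero =>
    intro D S hDS hc hpot
    have h0 : (D ∪ S)ᶜ = ∅ := Finset.card_eq_zero.1 (by omega)
    rw [h0, Finset.card_empty] at hpot
    exact hend D S h0 (by simpa using hpot)
  | succ t ih =>
    intro D S hDS hc hpot
    rw [Forces]
    rcases Finset.eq_empty_or_nonempty ((D ∪ S)ᶜ) with h0 | hne
    · left
      rw [h0, Finset.card_empty] at hpot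
      exact hend D S h0 (by simpa using hpot)
    · right
      obtain ⟨x, hx, hmax⟩ := Finset.exists_max_image _ (dg b F D S) hne
      have hx' : x ∉ D ∪ S := mem_compl.1 hx
      have hxD : x ∉ D := fun h => hx' (mem_union_left _ h)
      have hxS : x ∉ S := fun h => hx' (mem_union_right _ h)
      refine ⟨x, hx', Or.inr fun Z hZ hdis => ?_⟩
      have hzz : ∀ z ∈ Z, z ≠ x ∧ z ∉ D ∧ z ∉ S := by
        intro z hz
        have h1 := Finset.disjoint_left.1 hdis hz
        rw [mem_union, mem_insert] at h1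
        push Not at h1
        exact ⟨h1.1.1, h1.1.2, h1.2⟩
      have hzc : ∀ z ∈ Z, z ∈ (D ∪ S)ᶜ := by
        intro z hz
        rw [mem_compl, mem_union, not_or]
        exact (hzz z hz).2
      have e1 : (insert x D ∪ (S ∪ Z))ᶜ = (((D ∪ S)ᶜ).erase x) \ Z := by
        ext z
        simp only [mem_compl, mem_union, mem_insert, mem_erase, Finset.mem_sdiff]
        tauto
      have hcard : #((insert x D ∪ (S ∪ Z))ᶜ) + (1 + #Z) = #((D ∪ S)ᶜ) := by
        have h1 : Z ⊆ ((D ∪ S)ᶜ).erase x := fun z hz => mem_erase.2 ⟨(hzz z hz).1, hzc z hz⟩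
        have h2 := Finset.card_le_card h1
        rw [e1, Finset.card_sdiff_of_subset h1]
        rw [Finset.card_erase_of_mem hx] at h2 ⊢
        have := Finset.card_pos.2 hne
        omega
      refine ih _ _ ?_ (by omega) ?_
      · rw [Finset.disjoint_left]
        intro z hz hz'
        rw [mem_insert] at hz
        rw [mem_union] at hz'
        rcases hz with rfl | hz
        · rcases hz' with h | h
          · exact hxS h
          · exact (hzz _ h).1 rfl
        · rcases hz' with h | h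
          · exact Finset.disjoint_left.1 hDS hz h
          · exact (hzz _ h).2.1 hz
      · have h6 := pot_step (b := b) hF (S := S) hxD hZ (fun z hz => ⟨(hzz z hz).2.1, (hzz z hz).1.symm⟩)
          (fun z hz => hmax z (hzc z hz))
        have h7 : (#((insert x D ∪ (S ∪ Z))ᶜ) : ℝ) + (1 + #Z) = #((D ∪ S)ᶜ) := by
          exact_mod_cast hcard
        have hb : (0 : ℝ) ≤ b := Nat.cast_nonneg b
        have hZr : (#Z : ℝ) ≤ b := by exact_mod_cast hZ
        have h8 : (b : ℝ) * #Z * (1 / ((b : ℝ) + 1)) ^ 2 ≤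
            (1 + #Z) * ((b : ℝ) ^ 2 / ((b : ℝ) + 1) ^ 3) := by
          have h9 : (b : ℝ) * #Z * (1 / ((b : ℝ) + 1)) ^ 2 =
              (b * #Z * (b + 1)) / ((b : ℝ) + 1) ^ 3 := by
            field_simp
          rw [h9, ← mul_div_assoc]
          refine div_le_div_of_nonneg_right ?_ (by positivity)
          nlinarith [mul_nonneg hb (sub_nonneg.2 hZr)]
        have h10 : (#((D ∪ S)ᶜ) : ℝ) * ((b : ℝ) ^ 2 / ((b : ℝ) + 1) ^ 3) =
            #((insert x D ∪ (S ∪ Z))ᶜ) * ((b : ℝ) ^ 2 / ((b : ℝ) + 1) ^ 3) +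
              (1 + #Z) * ((b : ℝ) ^ 2 / ((b : ℝ) + 1) ^ 3) := by
          rw [← h7]; ring
        linarith

/-- If there are many dominating sets of size `r` and few pairs of them meeting in at least two
vertices, then Dominator can claim a dominating set of size at most `r` in the `(1:b)` game. -/
lemma sizeMB_le {b : ℕ} {G : SimpleGraph V} {r : ℕ} {J : Finset ℕ} (hJ : ∀ s, 2 ≤ s → s < r → s ∈ J)
    (h : (Fintype.card V : ℝ) * ((b : ℝ) ^ 2 / ((b : ℝ) + 1) ^ 3) <
      ((X r G : ℝ) - YJ r J G) * (1 / ((b : ℝ) + 1)) ^ r) :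
    sizeMB G b ≤ r := by
  classical
  set P := (univ : Finset V).powersetCard r with hP
  set Q := P.filter (fun A => Dom G A) with hQ
  set F := Q.filter (fun A => ∀ B ∈ Q, A ≠ B → #(A ∩ B) ≤ 1) with hFdef
  have hmem : ∀ A ∈ F, #A = r ∧ Dom G A := by
    intro A hA
    rw [hFdef, mem_filter, hQ, mem_filter, hP, mem_powersetCard] at hA
    exact ⟨hA.1.1.2, hA.1.2⟩
  have hXQ : X r G = #Q := by
    unfold X
    rfl
  have hbad : #(Q \ F) ≤ YJ r J G := by
    have hch : ∀ A ∈ Q \ F, ∃ B ∈ Q, A ≠ B ∧ 2 ≤ #(A ∩ B) := by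
      intro A hA
      rw [Finset.mem_sdiff] at hA
      have h1 : ¬ ∀ B ∈ Q, A ≠ B → #(A ∩ B) ≤ 1 := fun hh => hA.2 (mem_filter.2 ⟨hA.1, hh⟩)
      push Not at h1
      obtain ⟨B, hB, hne, hc⟩ := h1
      exact ⟨B, hB, hne, hc⟩
    choose! φ hφ using hch
    unfold YJ
    refine Finset.card_le_card_of_injOn (fun A => (A, φ A)) ?_ ?_
    · intro A hA
      have hA' : A ∈ Q \ F := hA
      obtain ⟨h1, h2, h3⟩ := hφ A hA'
      have hAQ : A ∈ Q := (Finset.mem_sdiff.1 hA').1
      rw [hQ, mem_filter, hP, mem_powersetCard] at hAQ h1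
      rw [mem_coe, mem_filter, mem_product, mem_powersetCard, mem_powersetCard]
      refine ⟨⟨hAQ.1, h1.1⟩, h2, hAQ.2, h1.2, hJ _ h3 ?_⟩
      by_contra hcon
      push Not at hcon
      have h4 : A ∩ φ A = A := Finset.eq_of_subset_of_card_le inter_subset_left
        (by rw [hAQ.1.2]; exact hcon)
      have h5 : A ⊆ φ A := by
        intro z hz
        rw [← h4] at hz
        exact (mem_inter.1 hz).2
      exact h2 (Finset.eq_of_subset_of_card_le h5 (by rw [hAQ.1.2, h1.1.2]))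
    · intro A _ B _ hAB
      exact (Prod.mk.inj hAB).1
  have hcard : #Q = #F + #(Q \ F) := by
    have : F ⊆ Q := filter_subset _ _
    rw [Finset.card_sdiff_of_subset this]
    have := Finset.card_le_card this
    omega
  have hF : ∀ A ∈ F, ∀ B ∈ F, A ≠ B → #(A ∩ B) ≤ 1 := by
    intro A hA B hB hne
    rw [hFdef, mem_filter] at hA hB
    exact hA.2 B hB.1 hne
  have hpot : pot b F (∅ : Finset V) ∅ = #F * (1 / ((b : ℝ) + 1)) ^ r := by
    unfold pot
    have : ∀ A ∈ F, wt b (∅ : Finset V) ∅ A = (1 / ((b : ℝ) + 1)) ^ r := by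
      intro A hA
      unfold wt
      rw [if_pos (Finset.disjoint_empty_right A), Finset.sdiff_empty, (hmem A hA).1]
    rw [Finset.sum_congr rfl this, Finset.sum_const, nsmul_eq_mul]
  have hlt : (#(((∅ : Finset V) ∪ ∅)ᶜ) : ℝ) * ((b : ℝ) ^ 2 / ((b : ℝ) + 1) ^ 3) <
      pot b F (∅ : Finset V) ∅ := by
    rw [hpot, Finset.union_empty, Finset.compl_empty, Finset.card_univ]
    refine lt_of_lt_of_le h ?_
    refine mul_le_mul_of_nonneg_right ?_ (by positivity)
    rw [hXQ, hcard]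
    have h5 : (#(Q \ F) : ℝ) ≤ YJ r J G := by exact_mod_cast hbad
    push_cast
    linarith
  have hw := beck (b := b) hF (T := fun D => ∃ A ⊆ D, Dom G A ∧ #A ≤ r)
    (fun D ⟨A, hA, hAD⟩ => ⟨A, hAD, (hmem A hA).2, (hmem A hA).1.le⟩)
    (Fintype.card V) ∅ ∅ (by simp) (by simp) hlt
  exact sInf_le ⟨r, rfl, _, hw⟩

/-- For `1 - p ≤ 1 / (b + 1)²` and every large `r` there is `n` such that with probability at least
`1/36` Dominator can claim a dominating set of size at most `r`, but cannot win within `r` rounds. -/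
theorem time_ne_size (b : ℕ) (hb : 1 ≤ b) (p : I) (hp0 : (1 - (p : ℝ)) * ((b : ℝ) + 1) ^ 2 ≤ 1)
    (hp1 : (p : ℝ) < 1) :
    ∀ᶠ r : ℕ in atTop, ∃ n : ℕ, 2 * r < n ∧
      1 / 36 ≤ (G(Fin n, p)).real {G | sizeMB G b ≤ r ∧ (r : ℕ∞) < timeMB G b} := by
  have hb1 : (1 : ℝ) ≤ b := by exact_mod_cast hb
  have hq0 : 0 < 1 - (p : ℝ) := by linarith
  have hq1 : 1 - (p : ℝ) < 1 := by
    have h1 : (1 - (p : ℝ)) * 1 < (1 - (p : ℝ)) * ((b : ℝ) + 1) ^ 2 :=
      mul_lt_mul_of_pos_left (by nlinarith) hq0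
    linarith
  filter_upwards [exists_n2 hq0 hq1, core2 hq0 hq1, eventually_ge_atTop 2] with r h1 h2 hr2
  obtain ⟨n, hn1, hn3, hn4⟩ := h1
  obtain ⟨hnr, hμ1, e1, e2, e3⟩ := h2 n hn1 _ rfl hn3 hn4
  refine ⟨n, hnr, ?_⟩
  set μ := (n.choose r : ℝ) * (1 - (1 - (p : ℝ)) ^ r) ^ (n - r) with hμ
  have h3 := prob_good (V := Fin n) p r hμ1 (by rw [Fintype.card_fin])
    (by rw [Fintype.card_fin]; exact e1) (by rw [Fintype.card_fin]; exact e2)
    (by rw [Fintype.card_fin]; exact e3)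
  refine h3.trans (measureReal_mono (fun G hG => ?_))
  obtain ⟨g1, g2, g3⟩ := hG
  refine ⟨sizeMB_le (J := Ico 2 r) (fun s hs1 hs2 => mem_Ico.2 ⟨hs1, hs2⟩) ?_,
    lt_timeMB_of_YJ hb hr2 (by rw [Fintype.card_fin]; omega) g3⟩
  rw [Fintype.card_fin]
  have hn0 : (0 : ℝ) < n := by exact_mod_cast (by omega : 0 < n)
  have h4 : (3 / 8) * μ ≤ (X r G : ℝ) - YJ r (Ico 2 r) G := by linarith
  set a : ℝ := (b : ℝ) + 1 with ha
  have ha0 : 0 < a := by positivity
  have h5 : (n : ℝ) * ((b : ℝ) ^ 2 / a ^ 3) < (3 / 8) * μ * (1 / a) ^ r := by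
    have h6 : (a ^ 2) ^ r ≤ 2 * n := by
      have h7 : (a ^ 2) ^ r * (1 - (p : ℝ)) ^ r ≤ 1 := by
        rw [← mul_pow]
        exact pow_le_one₀ (by positivity) (by linarith)
      have h8 : (a ^ 2) ^ r * 1 ≤ (a ^ 2) ^ r * (2 * ((1 - (p : ℝ)) ^ r * n)) :=
        mul_le_mul_of_nonneg_left hn1 (by positivity)
      calc (a ^ 2) ^ r = (a ^ 2) ^ r * 1 := by ring
        _ ≤ (a ^ 2) ^ r * (2 * ((1 - (p : ℝ)) ^ r * n)) := h8
        _ = ((a ^ 2) ^ r * (1 - (p : ℝ)) ^ r) * (2 * n) := by ring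
        _ ≤ 1 * (2 * n) := mul_le_mul_of_nonneg_right h7 (by positivity)
        _ = 2 * n := by ring
    have hbb : 128 * (b : ℝ) ^ 4 < 9 * a ^ 6 := by
      have k1 : 4 * (b : ℝ) ≤ a ^ 2 := by rw [ha]; nlinarith [sq_nonneg ((b : ℝ) - 1)]
      have k2 : (4 * (b : ℝ)) ^ 2 ≤ (a ^ 2) ^ 2 := pow_le_pow_left₀ (by positivity) k1 2
      have k3 : (b : ℝ) ^ 2 < a ^ 2 := by rw [ha]; nlinarith
      have k4 : (4 * (b : ℝ)) ^ 2 * (b : ℝ) ^ 2 < (a ^ 2) ^ 2 * a ^ 2 :=
        mul_lt_mul' k2 k3 (by positivity) (by positivity)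
      have k5 : (0 : ℝ) < (b : ℝ) ^ 4 := by positivity
      have k6 : (4 * (b : ℝ)) ^ 2 * (b : ℝ) ^ 2 = 16 * (b : ℝ) ^ 4 := by ring
      have k7 : (a ^ 2) ^ 2 * a ^ 2 = a ^ 6 := by ring
      rw [k6, k7] at k4
      linarith
    have h9 : (8 * (n : ℝ) * (b : ℝ) ^ 2 * a ^ r) ^ 2 < (3 * a ^ 3 * μ) ^ 2 := by
      have h10 : (8 * (n : ℝ) * (b : ℝ) ^ 2 * a ^ r) ^ 2 =
          64 * (b : ℝ) ^ 4 * ((n : ℝ) ^ 2 * (a ^ 2) ^ r) := by
        rw [← pow_mul, mul_comm 2 r, pow_mul]; ring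
      have h11 : (n : ℝ) ^ 2 * (a ^ 2) ^ r ≤ (n : ℝ) ^ 2 * (2 * n) :=
        mul_le_mul_of_nonneg_left h6 (by positivity)
      have h12 : (0 : ℝ) < (n : ℝ) ^ 3 := by positivity
      rw [h10]
      calc 64 * (b : ℝ) ^ 4 * ((n : ℝ) ^ 2 * (a ^ 2) ^ r)
          ≤ 64 * (b : ℝ) ^ 4 * ((n : ℝ) ^ 2 * (2 * n)) :=
            mul_le_mul_of_nonneg_left h11 (by positivity)
        _ = (128 * (b : ℝ) ^ 4) * (n : ℝ) ^ 3 := by ring
        _ < (9 * a ^ 6) * (n : ℝ) ^ 3 := mul_lt_mul_of_pos_right hbb h12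
        _ ≤ (9 * a ^ 6) * μ ^ 2 := mul_le_mul_of_nonneg_left hn3 (by positivity)
        _ = (3 * a ^ 3 * μ) ^ 2 := by ring
    have h11 : 8 * (n : ℝ) * (b : ℝ) ^ 2 * a ^ r < 3 * a ^ 3 * μ :=
      lt_of_pow_lt_pow_left₀ 2 (by positivity) h9
    rw [one_div, inv_pow, ← div_eq_mul_inv, lt_div_iff₀ (by positivity), ← mul_div_assoc,
      div_mul_eq_mul_div, div_lt_iff₀ (by positivity)]
    linarith
  refine lt_of_lt_of_le h5 (mul_le_mul_of_nonneg_right h4 (by positivity))

end Pool.Agent.H53Dom
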